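import Pool.Agent.V1141.NG.Coniv
import Pool.Agent.H914R2.DDefs

/-!
# Numerically trivial classes on all products come from the products with few factors
-/

set_option autoImplicit false
set_option linter.unusedSectionVars false

open CategoryTheory AlgebraicGeometry

universe u v

namespace Pool.Agent.V11263.NGD

open Pool.Agent.H914 VarClass Obj WeilCohomology Pool.Agent.V1141.NG

variable {k : Type u} [Field k] {𝒱 : VarClass k} {ops : CycleOps 𝒱}

/-- `x` is the class of a numerically trivial cycle on `Z`, of a codimension `j` with `B j`: all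
intersection numbers of the cycle with the cycles of the complementary codimension vanish. -/
def IsNumTrivial (W : WeilCohomology.{u, v} ops) (B : ℕ → Prop) (Z : 𝒱.Obj) (x : W.H Z) : Prop :=
  ∃ j ≤ Z.dim, B j ∧ ∃ z, Z.IsCyc j z ∧
    (∀ w, Z.IsCyc (Z.dim - j) w → Z.V.degCycle (ops.mul z w) = 0) ∧ x = W.cl Z z

/-- The standard conjecture D for `Z` in the codimensions at most `c`: numerically trivial cycles of
codimension at most `c` are homologically trivial. -/
def HomEqNumUpTo (W : WeilCohomology.{u, v} ops) (c : ℕ) (Z : 𝒱.Obj) : Prop :=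
  ∀ j ≤ Z.dim, j ≤ c → ∀ z, Z.IsCyc j z →
    (∀ w, Z.IsCyc (Z.dim - j) w → Z.V.degCycle (ops.mul z w) = 0) → W.cl Z z = 0

variable {W : WeilCohomology.{u, v} ops} {r : ℕ} {X : Fin r → 𝒱.Obj}

lemma proj_ideal {N : ℕ} {i : Fin r} {I : List (Fin r)} (c : ℕ) {x : W.H (prodL X i I)}
    (hx : x ∈ idealOf (IsNumTrivial W fun _ => True) X N i I) :
    proj (W.isInternal (prodL X i I)) (2 * c) x ∈ idealOf (IsNumTrivial W (· ≤ c)) X N i I := by
  induction hx using Submodule.span_induction with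
  | zero => rw [map_zero]; exact Submodule.zero_mem _
  | add a b _ _ ha hb => rw [map_add]; exact Submodule.add_mem _ ha hb
  | smul t a _ ha => rw [map_smul]; exact Submodule.smul_mem _ _ ha
  | mem x hx =>
    obtain ⟨y, _, ⟨j, J, π, q, hs, hJ, ⟨b, hb, -, z, hz, hnum, rfl⟩, rfl⟩, rfl⟩ := hx
    have hq : W.map π (W.cl _ z) ∈ W.gr (prodL X i I) (2 * b) := W.map_mem π (W.cl_mem hz)
    refine gr_induction (W.isInternal (prodL X i I)) (p := fun y =>
      proj (W.isInternal (prodL X i I)) (2 * c) (y * W.map π (W.cl _ z)) ∈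
        idealOf (IsNumTrivial W (· ≤ c)) X N i I) ?_ ?_ y
    · intro d y hy
      by_cases h : d + 2 * b = 2 * c
      · have h1 := W.mul_mem hy hq
        rw [h] at h1
        rw [proj_same _ h1]
        exact Submodule.subset_span ⟨y, _, ⟨j, J, π, _, hs, hJ,
          ⟨b, hb, by omega, z, hz, hnum, rfl⟩, rfl⟩, rfl⟩
      · rw [proj_ne _ (W.mul_mem hy hq) h]
        exact Submodule.zero_mem _
    · intro y y' hy hy'
      rw [add_mul, map_add]
      exact Submodule.add_mem _ hy hy'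

/-- **Numerically trivial classes come from few factors.** -/
theorem num_main (W : WeilCohomology.{u, v} ops) (X : Fin r → 𝒱.Obj) :
    ∃ N : ℕ, ∀ (i : Fin r) (I : List (Fin r)),
      (∀ c x, IsNumTrivial W (· = c) (prodL X i I) x →
        x ∈ idealOf (IsNumTrivial W (· ≤ c)) X N i I) ∧
      (∀ c, (∀ j J, IsSub j J i I → J.length + 1 ≤ N → HomEqNumUpTo W c (prodL X j J)) →
        HomEqNumUpTo W c (prodL X i I)) ∧
      ((∀ j J, IsSub j J i I → J.length + 1 ≤ N → HomEqNum W (prodL X j J)) →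
        HomEqNum W (prodL X i I)) := by
  obtain ⟨N, hN⟩ := mem_idealOf (W := W) (IsNumTrivial W fun _ => True) X
  have key : ∀ (i : Fin r) (I : List (Fin r)), ∀ c x, IsNumTrivial W (· = c) (prodL X i I) x →
      x ∈ idealOf (IsNumTrivial W (· ≤ c)) X N i I := by
    rintro i I c x ⟨j, hj, rfl, z, hz, hnum, rfl⟩
    have h1 := hN i I _ ⟨j, hj, trivial, z, hz, hnum, rfl⟩
    have h2 := proj_ideal j h1
    rwa [proj_same _ (W.cl_mem hz)] at h2
  have zero : ∀ (i : Fin r) (I : List (Fin r)) (c : ℕ),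
      (∀ j J, IsSub j J i I → J.length + 1 ≤ N → HomEqNumUpTo W c (prodL X j J)) →
      ∀ x ∈ idealOf (IsNumTrivial W (· ≤ c)) X N i I, x = 0 := by
    intro i I c h x hx
    have h3 : idealOf (IsNumTrivial W (· ≤ c)) X N i I ≤ ⊥ := by
      refine Submodule.span_le.2 ?_
      rintro _ ⟨y, _, ⟨j, J, π, q, hs, hJ, ⟨b, hb, hbc, z, hz, hnum, rfl⟩, rfl⟩, rfl⟩
      rw [h j J hs hJ b hb hbc z hz hnum, map_zero, mul_zero]
      exact Submodule.zero_mem _
    exact (Submodule.mem_bot _).1 (h3 hx)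
  refine ⟨N, fun i I => ⟨key i I, fun c h j hj hjc z hz hnum => ?_, fun h j hj z hz hnum => ?_⟩⟩
  · refine zero i I c h _ ?_
    have h1 := key i I j _ ⟨j, hj, rfl, z, hz, hnum, rfl⟩
    refine Submodule.span_mono ?_ h1
    rintro _ ⟨y, _, ⟨j', J, π, q, hs, hJ, ⟨b, hb, hbc, z', hz', hnum', rfl⟩, rfl⟩, rfl⟩
    exact ⟨y, _, ⟨j', J, π, _, hs, hJ, ⟨b, hb, hbc.trans hjc, z', hz', hnum', rfl⟩, rfl⟩, rfl⟩
  · exact zero i I j (fun j' J hs hJ b hb _ z hz hnum => h j' J hs hJ b hb z hz hnum) _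
      (key i I j _ ⟨j, hj, rfl, z, hz, hnum, rfl⟩)

end Pool.Agent.V11263.NGD
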